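import Mathlib

namespace Pool.Agent.Results.MP_bfdf54_al.Bisect
open Equiv MulAction

/-- the `F`-linear dimension of the action of `G` on `Ω` -/
noncomputable def lindim (F G Ω : Type) [Field F] [Group G] [MulAction G Ω] : ℕ :=
  sInf {d | ∃ (V : Type) (_ : AddCommGroup V) (_ : Module F V) (ρ : Representation F G V)
    (φ : Ω → V), FiniteDimensional F V ∧ Module.finrank F V = d ∧ Function.Injective φ ∧
    ∀ g ω, φ (g • ω) = ρ g (φ ω)}

/-- the action of `S_n` on `Ω` is equivalent to the action on `k`-subsets -/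
def IsSubsetAction (n k : ℕ) (Ω : Type) [MulAction (Perm (Fin n)) Ω] : Prop :=
  ∃ e : Ω ≃ {s : Finset (Fin n) // s.card = k}, ∀ (g : Perm (Fin n)) ω,
    (e (g • ω)).1 = (e ω).1.image g

variable (n : ℕ)

def ρ0 : Representation (ZMod 2) (Perm (Fin n)) (Fin n → ZMod 2) where
  toFun g := LinearMap.funLeft _ _ g.symm
  map_one' := rfl
  map_mul' _ _ := rfl

def L : Submodule (ZMod 2) (Fin n → ZMod 2) := Submodule.span _ {1}

lemma memL (x : Fin n → ZMod 2) : x ∈ L n ↔ ∃ c, ∀ i, x i = c := by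
  simp [L, Submodule.mem_span_singleton, funext_iff, eq_comm]

def V : Type := (Fin n → ZMod 2) ⧸ L n
instance : AddCommGroup (V n) := inferInstanceAs (AddCommGroup (_ ⧸ L n))
instance : Module (ZMod 2) (V n) := inferInstanceAs (Module _ (_ ⧸ L n))

def ρ : Representation (ZMod 2) (Perm (Fin n)) (V n) :=
  (ρ0 n).quotient (L n) fun g x hx => by
    rw [Submodule.mem_comap, memL]
    obtain ⟨c, hc⟩ := (memL n x).1 hx
    exact ⟨c, fun i => hc _⟩

instance : MulAction (Perm (Fin n)) (V n) := MulAction.compHom (V n) (ρ n)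

def mk (x : Fin n → ZMod 2) : V n := Submodule.Quotient.mk x

lemma smul_mk (g : Perm (Fin n)) (x : Fin n → ZMod 2) : g • mk n x = mk n (x ∘ g.symm) := rfl

lemma fix_iff (g : Perm (Fin n)) (x : Fin n → ZMod 2) :
    g • mk n x = mk n x ↔ ∃ c, ∀ i, x (g i) = x i + c := by
  refine ((Submodule.Quotient.eq' (L n) (x := x ∘ g.symm) (y := x)).trans (memL n _)).trans ?_
  constructor
  · rintro ⟨c, h⟩
    exact ⟨c, fun i => by have := h (g i); simp at this; rw [← this, ← add_assoc, CharTwo.add_self_eq_zero, zero_add]⟩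
  · rintro ⟨c, h⟩
    exact ⟨c, fun i => by have := h (g.symm i); simp at this; simp [this, ← add_assoc, CharTwo.add_self_eq_zero]⟩

def x0 (i : Fin n) : ZMod 2 := if 2 * i.val < n then 0 else 1

def ω0 : orbit (Perm (Fin n)) (mk n (x0 n)) := ⟨_, mem_orbit_self _⟩

lemma stab (g : Perm (Fin n)) : g ∈ stabilizer (Perm (Fin n)) (ω0 n) ↔
    ∃ c, ∀ i, x0 n (g i) = x0 n i + c := by
  rw [mem_stabilizer_iff, ← fix_iff, Subtype.ext_iff]; rfl

lemma swap_stab (i j : Fin n) (h : x0 n i = x0 n j) :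
    swap i j ∈ stabilizer (Perm (Fin n)) (ω0 n) := by
  refine (stab n _).2 ⟨0, fun k => ?_⟩
  rw [swap_apply_def]; split_ifs <;> simp_all

lemma z2 : ∀ a b c : ZMod 2, a ≠ b → c = a ∨ c = b := by decide

variable {n} (hn : 6 ≤ n)
include hn

lemma ne_top : stabilizer (Perm (Fin n)) (ω0 n) ≠ ⊤ := by
  intro h
  obtain ⟨c, hc⟩ := (stab n (swap ⟨0, by omega⟩ ⟨n - 1, by omega⟩)).1 (h ▸ Subgroup.mem_top _)
  have h0 := hc ⟨0, by omega⟩
  have h1 := hc ⟨1, by omega⟩
  rw [swap_apply_of_ne_of_ne (by simp) (by simp; omega)] at h1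
  rw [swap_apply_left] at h0
  simp only [x0] at h0
  rw [if_neg (by omega), if_pos (by omega)] at h0
  simp only [left_eq_add] at h1
  rw [h1] at h0
  exact absurd h0 (by decide)

lemma coatom : IsCoatom (stabilizer (Perm (Fin n)) (ω0 n)) := by
  refine ⟨ne_top hn, fun H hH => ?_⟩
  obtain ⟨g, hg, hg'⟩ := SetLike.exists_of_lt hH
  have : ∃ i j, x0 n i = x0 n j ∧ x0 n (g i) ≠ x0 n (g j) := by
    by_contra hc
    push Not at hc
    apply hg'
    rw [stab]
    let p : Fin n := ⟨0, by omega⟩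
    let q : Fin n := ⟨n - 1, by omega⟩
    have hp : x0 n p = 0 := if_pos (by simp [p]; omega)
    have hq : x0 n q = 1 := if_neg (by simp [q]; omega)
    have key : ∀ i, x0 n i = 0 ∧ x0 n (g i) = x0 n (g p) ∨ x0 n i = 1 ∧ x0 n (g i) = x0 n (g q) :=
      fun i => (z2 0 1 (x0 n i) (by decide)).imp (fun h => ⟨h, hc _ _ (h.trans hp.symm)⟩)
        fun h => ⟨h, hc _ _ (h.trans hq.symm)⟩
    have hne : x0 n (g p) ≠ x0 n (g q) := by
      intro h
      have a1 := key (g.symm p)
      have a2 := key (g.symm q)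
      simp only [apply_symm_apply, hp, hq, ← h] at a1 a2
      have b1 : (0 : ZMod 2) = x0 n (g p) := by tauto
      have b2 : (1 : ZMod 2) = x0 n (g p) := by tauto
      exact absurd (b1.trans b2.symm) (by decide)
    refine ⟨x0 n (g p), fun i => ?_⟩
    rcases key i with ⟨h1, h2⟩ | ⟨h1, h2⟩
    · simp [h1, h2]
    · rw [h1, h2]
      revert hne
      generalize x0 n (g p) = a; generalize x0 n (g q) = b
      revert a b; decide
  obtain ⟨i, j, h1, h2⟩ := this
  have hs : swap (g i) (g j) ∈ H := by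
    rw [swap_apply_apply]
    exact H.mul_mem (H.mul_mem hg (hH.le (swap_stab n i j h1))) (H.inv_mem hg)
  have k1 : ∀ a, swap a (g i) ∈ H := fun a => by
    rcases z2 _ _ (x0 n a) h2 with h | h
    · exact hH.le (swap_stab n _ _ h)
    · exact SubmonoidClass.swap_mem_trans H (hH.le (swap_stab n _ _ h)) (by rwa [swap_comm])
  rw [eq_top_iff, ← Perm.closure_isSwap, Subgroup.closure_le]
  rintro _ ⟨a, b, -, rfl⟩
  exact SubmonoidClass.swap_mem_trans H (k1 a) (by rw [swap_comm]; exact k1 b)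

lemma faithful (g : Perm (Fin n)) (h : ∀ ω : orbit (Perm (Fin n)) (mk n (x0 n)), g • ω = ω) :
    g = 1 := by
  obtain ⟨c, hc⟩ := (stab n g).1 (h _)
  have key : ∀ p q, x0 n p ≠ x0 n q → g p = p ∨ g p = q := by
    intro p q hpq
    obtain ⟨d, hd⟩ := (fix_iff n g (x0 n ∘ swap p q)).1
      (congrArg Subtype.val (h (swap p q • ω0 n)))
    obtain ⟨r, hr⟩ : ∃ r, r ∉ ({p, q, g.symm p, g.symm q} : Finset (Fin n)) := by
      by_contra hr
      push Not at hr
      have := (Finset.card_le_card fun r (_ : r ∈ Finset.univ) => hr r).trans Finset.card_le_four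
      simp at this; omega
    simp only [Finset.mem_insert, Finset.mem_singleton, not_or, eq_symm_apply] at hr
    have e1 := hd r
    simp only [Function.comp, swap_apply_of_ne_of_ne hr.1 hr.2.1,
      swap_apply_of_ne_of_ne hr.2.2.1 hr.2.2.2, hc, add_right_inj] at e1
    by_contra hh
    push Not at hh
    have e2 := hd p
    simp only [Function.comp, swap_apply_left, swap_apply_of_ne_of_ne hh.1 hh.2, hc, e1,
      add_left_inj] at e2
    exact hpq e2
  ext1 p
  by_contra hp
  by_cases h2 : 2 * p.val < n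
  · have a := (key p ⟨n - 1, by omega⟩ (by
      simp only [x0]; rw [if_pos h2, if_neg (by omega)]; decide)).resolve_left hp
    have b := (key p ⟨n - 2, by omega⟩ (by
      simp only [x0]; rw [if_pos h2, if_neg (by omega)]; decide)).resolve_left hp
    have := a.symm.trans b
    simp at this; omega
  · have a := (key p ⟨0, by omega⟩ (by
      simp only [x0]; rw [if_neg h2, if_pos (by omega)]; decide)).resolve_left hp
    have b := (key p ⟨1, by omega⟩ (by
      simp only [x0]; rw [if_neg h2, if_pos (by omega)]; decide)).resolve_left hp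
    have := a.symm.trans b
    simp at this

lemma notSub (he : Even n) (k : ℕ) : ¬ IsSubsetAction n k (orbit (Perm (Fin n)) (mk n (x0 n))) := by
  rintro ⟨e, h⟩
  have h1 : ∀ g ∈ stabilizer (Perm (Fin n)) (ω0 n), ∀ i ∈ (e (ω0 n)).1, g i ∈ (e (ω0 n)).1 := by
    intro g hg i hi
    have := h g (ω0 n)
    rw [mem_stabilizer_iff.1 hg] at this
    rw [this]; exact Finset.mem_image_of_mem _ hi
  have hrev : ∀ i : Fin n, x0 n i.rev = x0 n i + 1 := fun i => by
    obtain ⟨m, hm⟩ := he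
    simp only [x0, Fin.val_rev]
    split_ifs <;> first | rfl | omega
  have h2 : ∀ i ∈ (e (ω0 n)).1, ∀ j, j ∈ (e (ω0 n)).1 := by
    intro i hi j
    rcases z2 (x0 n i) (x0 n i.rev) (x0 n j) (by rw [hrev]; simp) with hj | hj
    · simpa using h1 _ (swap_stab n j i hj) i hi
    · simpa using h1 _ (swap_stab n j _ hj) _ (h1 Fin.revPerm ((stab n _).2 ⟨1, hrev⟩) i hi)
  apply ne_top hn
  rw [eq_top_iff]
  intro g _
  apply e.injective
  apply Subtype.ext
  rw [h]
  rcases (e (ω0 n)).1.eq_empty_or_nonempty with h0 | ⟨i, hi⟩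
  · simp [h0]
  · rw [Finset.eq_univ_of_forall (h2 i hi)]; simp

omit hn in
theorem result : ∀ n₀ : ℕ, ∃ n ≥ n₀, ∃ (F Ω : Type) (_ : Field F) (_ : MulAction (Perm (Fin n)) Ω),
    Finite Ω ∧ FaithfulSMul (Perm (Fin n)) Ω ∧ IsPreprimitive (Perm (Fin n)) Ω ∧
    (∀ k, ¬ IsSubsetAction n k Ω) ∧
    (lindim F (Perm (Fin n)) Ω : ℚ) < ((n : ℚ) ^ 2 - 3 * n) / 2 := by
  intro n₀
  have hn : 6 ≤ 2 * (n₀ + 3) := by omega
  refine ⟨2 * (n₀ + 3), by omega, ?_⟩
  have he : Even (2 * (n₀ + 3)) := even_two_mul _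
  generalize 2 * (n₀ + 3) = n at hn he
  have : Nontrivial (orbit (Perm (Fin n)) (mk n (x0 n))) := by
    by_contra hc
    rw [not_nontrivial_iff_subsingleton] at hc
    exact ne_top hn (eq_top_iff.2 fun g _ => Subsingleton.elim _ _)
  refine ⟨ZMod 2, orbit (Perm (Fin n)) (mk n (x0 n)), inferInstance, inferInstance,
    (Set.finite_range _).to_subtype, ⟨fun {g h} hgh => ?_⟩,
    (isCoatom_stabilizer_iff_preprimitive _ (ω0 n)).1 (coatom hn), notSub hn he, ?_⟩
  · exact inv_mul_eq_one.1 (faithful hn (g⁻¹ * h) fun ω => by rw [mul_smul, ← hgh]; simp)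
  · have h1 : lindim (ZMod 2) (Perm (Fin n)) (orbit (Perm (Fin n)) (mk n (x0 n))) ≤
        Module.finrank (ZMod 2) (V n) :=
      Nat.sInf_le ⟨V n, inferInstance, inferInstance, ρ n, Subtype.val,
        inferInstanceAs (FiniteDimensional _ (_ ⧸ L n)), rfl, Subtype.val_injective, fun _ _ => rfl⟩
    have h2 : Module.finrank (ZMod 2) (V n) ≤ n :=
      (Submodule.finrank_quotient_le (L n)).trans (by simp)
    have h3 : (lindim (ZMod 2) (Perm (Fin n)) (orbit (Perm (Fin n)) (mk n (x0 n))) : ℚ) ≤ n := by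
      exact_mod_cast h1.trans h2
    have h4 : (6 : ℚ) ≤ n := by exact_mod_cast hn
    nlinarith

end Pool.Agent.Results.MP_bfdf54_al.Bisect
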